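import Pool.Agent.P.MP_d1c5d3_co.PL.Main

/-! Tree polycubes: the generation chain that keeps the set of cells a tree. -/

set_option autoImplicit false

namespace Pool.Agent.P.MP_d1c5d3_co.TL

open Finset PL

variable {d : ℕ}

abbrev Inv (s : St d) : Prop := PL.Inv s

/-- The cells not yet examined that touch exactly one cell of the last generation. -/
def fresh (s : St d) : Finset (Cell d) :=
  (PL.fresh s).filter fun x => (s.2.filter fun b => x ∈ nb {b}).card = 1

/-- Expectation at level `k` of the generation chain. -/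
noncomputable def Ex (p : ℕ → ℝ) : ℕ → (St d → ℝ) → ℝ
  | 0, f => f (s0 d)
  | k + 1, f => Ex p k fun s => Bin (p k) (fresh s) fun S => f (step s S)

/-- Sum over all trajectories of length `k`. -/
noncomputable def Sm : ℕ → (St d → ℝ) → ℝ
  | 0, f => f (s0 d)
  | k + 1, f => Sm k fun s => ∑ S ∈ (fresh s).powerset, f (step s S)

noncomputable def zz (d : ℕ) (p : ℕ → ℝ) (k : ℕ) : ℝ := Ex p k fun s : St d => (s.2.card : ℝ)

noncomputable def ff (d : ℕ) (p : ℕ → ℝ) (k : ℕ) : ℝ :=
  Ex p k fun s : St d => ((fresh s).card : ℝ)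

noncomputable def aa (d : ℕ) (p : ℕ → ℝ) (k : ℕ) : ℝ := ∑ j ∈ range (k + 1), zz d p j

noncomputable def RR (p : ℕ → ℝ) (k : ℕ) (h : Cell d → ℝ) : ℝ :=
  Ex p k fun s : St d => pairs s.2 fun a b => h (a - b)

noncomputable def QQ (p : ℕ → ℝ) (k : ℕ) (h : Cell d → ℝ) : ℝ :=
  Ex p k fun s : St d => ∑ b ∈ s.2, ∑ w ∈ s.1 \ s.2, h (b - w)

/-- Number of adjacent pairs in `A × B`. -/
def ed (A B : Finset (Cell d)) : ℕ := ∑ x ∈ A, (B.filter fun y => y ∈ nb {x}).card

/-- Connected with few edges. -/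
def Tr (B : Finset (Cell d)) : Prop := Cn B ∧ ed B B + 2 ≤ 2 * B.card

def IsT (B : Finset (Cell d)) : Prop :=
  ((SimpleGraph.fromRel fun x y : Fin d → ℤ => ∑ i, |x i - y i| = 1).induce
    (↑B : Set (Fin d → ℤ))).IsTree

/-- Fixed tree polycubes: the lexicographically least cell is the origin. -/
def poly (d n : ℕ) : Set (Finset (Fin d → ℤ)) :=
  {B | B.card = n ∧ (0 : Fin d → ℤ) ∈ B ∧ (∀ x ∈ B, toLex (0 : Fin d → ℤ) ≤ toLex x) ∧ IsT B}

/-- At most `m * lam ^ m` trees with `m` cells contain the origin. -/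
def RB (d : ℕ) (lam : ℝ) : Prop :=
  ∀ (m : ℕ) (G : Finset (Finset (Cell d))),
    (∀ B ∈ G, B.card = m ∧ (0 : Cell d) ∈ B ∧ Tr B) → (G.card : ℝ) ≤ m * lam ^ m

theorem fresh_le (s : St d) : fresh s ⊆ PL.fresh s := filter_subset _ _

theorem mem_fresh1 {s : St d} {x : Cell d} (h : x ∈ fresh s) :
    x ∈ nb s.2 ∧ x ∉ s.1 ∧ x ∉ nb (s.1 \ s.2) := PL.mem_fresh.1 (fresh_le s h)

theorem fresh_sub (s : St d) : fresh s ⊆ nb s.2 := (fresh_le s).trans (PL.fresh_sub s)

theorem step_sdiff {s : St d} {S : Finset (Cell d)} (h : S ⊆ fresh s) :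
    (step s S).1 \ (step s S).2 = s.1 := PL.step_sdiff (h.trans (fresh_le s))

theorem inv_step {s : St d} (hs : Inv s) {S : Finset (Cell d)} (h : S ⊆ fresh s) :
    Inv (step s S) := PL.inv_step hs (h.trans (fresh_le s))

theorem Ex_succ (p : ℕ → ℝ) (k : ℕ) (f : St d → ℝ) :
    Ex p (k + 1) f = Ex p k fun s => Bin (p k) (fresh s) fun S => f (step s S) := rfl

theorem Ex_mono {p : ℕ → ℝ} {q : ℝ} (hp : Pr p q) (k : ℕ) {f g : St d → ℝ}
    (h : ∀ s, Inv s → f s ≤ g s) : Ex p k f ≤ Ex p k g := by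
  induction k generalizing f g with
  | zero => exact h _ inv_s0
  | succ k ih =>
    exact ih fun s hs => Bin_mono (hp.2 k).1 ((hp.2 k).2.trans hp.1)
      fun S hS => h _ (inv_step hs hS)

theorem Ex_congr (p : ℕ → ℝ) (k : ℕ) {f g : St d → ℝ}
    (h : ∀ s, Inv s → f s = g s) : Ex p k f = Ex p k g := by
  induction k generalizing f g with
  | zero => exact h _ inv_s0
  | succ k ih => exact ih fun s hs => Bin_congr _ fun S hS => h _ (inv_step hs hS)

theorem Ex_add (p : ℕ → ℝ) (k : ℕ) (f g : St d → ℝ) :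
    Ex p k (fun s => f s + g s) = Ex p k f + Ex p k g := by
  induction k generalizing f g with
  | zero => rfl
  | succ k ih => simp only [Ex_succ, Bin_add, ih]

theorem Ex_mul (p : ℕ → ℝ) (k : ℕ) (c : ℝ) (f : St d → ℝ) :
    Ex p k (fun s => c * f s) = c * Ex p k f := by
  induction k generalizing f with
  | zero => rfl
  | succ k ih => simp only [Ex_succ, Bin_mul, ih]

theorem Ex_const (p : ℕ → ℝ) (k : ℕ) (c : ℝ) : Ex p k (fun _ : St d => c) = c := by
  induction k with
  | zero => rfl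
  | succ k ih => simp only [Ex_succ, Bin_const, ih]

theorem Ex_nonneg {p : ℕ → ℝ} {q : ℝ} (hp : Pr p q) (k : ℕ) {f : St d → ℝ}
    (h : ∀ s, Inv s → 0 ≤ f s) : 0 ≤ Ex p k f :=
  (Ex_const p k 0).symm.le.trans (Ex_mono hp k h)

theorem Sm_succ (k : ℕ) (f : St d → ℝ) :
    Sm (k + 1) f = Sm k fun s => ∑ S ∈ (fresh s).powerset, f (step s S) := rfl

theorem Sm_mono (k : ℕ) {f g : St d → ℝ} (h : ∀ s, f s ≤ g s) : Sm k f ≤ Sm k g := by
  induction k generalizing f g with
  | zero => exact h _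
  | succ k ih => exact ih fun s => sum_le_sum fun S _ => h _

theorem zz_nonneg {p : ℕ → ℝ} {q : ℝ} (hp : Pr p q) (k : ℕ) : 0 ≤ zz d p k :=
  Ex_nonneg hp k fun _ _ => Nat.cast_nonneg _

theorem aa_succ (p : ℕ → ℝ) (k : ℕ) : aa d p (k + 1) = aa d p k + zz d p (k + 1) :=
  sum_range_succ _ _

theorem aa_mono {p : ℕ → ℝ} {q : ℝ} (hp : Pr p q) : Monotone (aa d p) :=
  monotone_nat_of_le_succ fun k => by rw [aa_succ]; linarith [zz_nonneg (d := d) hp (k + 1)]

theorem nb_symm {a x : Cell d} : x ∈ nb {a} ↔ a ∈ nb {x} := ⟨det_symm, det_symm⟩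

theorem ed_comm (A B : Finset (Cell d)) : ed A B = ed B A := by
  simp only [ed, card_filter]
  rw [sum_comm]
  exact sum_congr rfl fun x _ => sum_congr rfl fun y _ => if_congr nb_symm rfl rfl

theorem ed_union_le (A A' B : Finset (Cell d)) : ed (A ∪ A') B ≤ ed A B + ed A' B := by
  unfold ed
  rw [← sum_union_inter]
  exact Nat.le_add_right _ _

theorem ed_union (A S : Finset (Cell d)) :
    ed (A ∪ S) (A ∪ S) ≤ ed A A + 2 * ed S A + ed S S := by
  have h1 := ed_union_le A S (A ∪ S)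
  have h2 := ed_union_le A S A
  have h3 := ed_union_le A S S
  rw [ed_comm] at h2 h3
  have h4 := ed_comm A S
  omega

theorem ed_shift (c : Cell d) (B : Finset (Cell d)) :
    ed (B.image (· + c)) (B.image (· + c)) = ed B B := by
  unfold ed
  rw [sum_image fun _ _ _ _ h => add_left_injective c h]
  refine sum_congr rfl fun x _ => ?_
  rw [filter_image, card_image_of_injective _ (add_left_injective c)]
  refine congrArg _ (filter_congr fun y _ => ?_)
  simp only [det_mem]
  exact exists_congr fun t => by rw [add_right_comm, add_left_inj]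

theorem isT_iff {B : Finset (Cell d)} (hB : B.Nonempty) : IsT B ↔ Tr B := by
  classical
  have e : 2 * Nat.card ((SimpleGraph.fromRel fun x y : Fin d → ℤ => ∑ i, |x i - y i| = 1).induce
      (↑B : Set (Fin d → ℤ))).edgeSet = ed B B := by
    rw [Nat.card_eq_fintype_card, ← SimpleGraph.edgeFinset_card,
      ← SimpleGraph.sum_degrees_eq_twice_card_edges, ed, ← sum_coe_sort B]
    refine sum_congr rfl fun x _ => ?_
    rw [← SimpleGraph.card_neighborFinset_eq_degree,
      ← card_image_of_injective _ Subtype.val_injective]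
    refine congrArg _ (Finset.ext fun y => ?_)
    simp only [mem_image, SimpleGraph.mem_neighborFinset, mem_filter, det_mem]
    exact ⟨fun ⟨z, h, e⟩ => e ▸ ⟨z.2, (conn_adj _ _).1 h⟩,
      fun h => ⟨⟨y, h.1⟩, (conn_adj _ _).2 h.2, rfl⟩⟩
  have c : Nat.card (↑B : Set (Fin d → ℤ)) = B.card := by simp
  rw [IsT, SimpleGraph.isTree_iff_connected_and_card, Tr, ← p_CONN d B hB, c]
  refine and_congr_right fun h => ?_
  have := SimpleGraph.Connected.card_vert_le_card_edgeSet_add_one h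
  omega

end Pool.Agent.P.MP_d1c5d3_co.TL
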