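import Pool.Agent.P.MP_d1c5d3_co.TL.Iface

/-! First moments of the generation chain. -/

set_option autoImplicit false

namespace Pool.Agent.P.MP_d1c5d3_co.TL

open Finset Filter Topology PL

theorem p_GIB (hBIN : S_BIN) :
    S_GIB := by
  intro d p hp k
  induction k with
  | zero => intro g; simp [Ex, Sm]
  | succ k ih =>
    intro g
    have := ih fun s => Bin (p k) (fresh s) (fun S => g (step s S)) +
      Real.binEntropy (p k) * (fresh s).card
    rw [Ex_add, Ex_mul] at this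
    rw [Sm_succ, Ex_succ, sum_range_succ]
    refine le_trans (le_of_eq ?_) (this.trans (Sm_mono k fun s =>
      gib_one hBIN (hp k).1 (hp k).2 _ fun S => g (step s S)))
    rw [ff]; congr 1; ring

theorem p_MOM (hBIN : S_BIN) :
    S_MOM := by
  intro d p q hp
  have h0 : zz d p 0 = 1 := by simp [zz, Ex, s0]
  have h1 : ∀ k, zz d p (k + 1) = p k * ff d p k := by
    intro k
    rw [zz, ff, Ex_succ, ← Ex_mul]
    exact Ex_congr p k fun s _ => mom_bin hBIN _ _
  have h2 : ∀ k, ff d p k ≤ 2 * d * zz d p k := by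
    intro k
    rw [zz, ff, ← Ex_mul]
    refine Ex_mono hp k fun s _ => le_trans ?_ (mom_nb s.2)
    exact_mod_cast card_le_card (fresh_sub s)
  have q0 : 0 ≤ q := (hp.2 0).1.trans (hp.2 0).2
  have d0 : (0 : ℝ) ≤ 2 * d := by positivity
  refine ⟨h0, h1, h2, fun k => ?_, fun K => ?_⟩
  · induction k with
    | zero => simp [aa, zz, Ex, s0]
    | succ k ih =>
      rw [aa_succ, ← ih, zz, Ex_succ, Ex_succ, ← Ex_add]
      refine Ex_congr p k fun s _ => ?_
      rw [← Bin_const (p k) (s.1.card : ℝ) (fresh s), ← Bin_add]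
      refine Bin_congr _ fun S hS => ?_
      have : Disjoint s.1 S := disjoint_right.2 fun x hx => (mem_fresh1 (hS hx)).2.1
      simp only [step, card_union_of_disjoint this, Nat.cast_add]
  · have a0 : Ex p 0 (fun s : St d => ((s.2 ∩ nb {0}).card : ℝ)) = 0 := by
      show ((({0} : Finset (Cell d)) ∩ nb {0}).card : ℝ) = 0
      rw [Nat.cast_eq_zero, card_eq_zero, ← disjoint_iff_inter_eq_empty, disjoint_singleton_left]
      intro h
      obtain ⟨z, hz, t, ht⟩ := mem_nb.1 h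
      rw [mem_singleton.1 hz, zero_add] at ht
      exact u_ne_zero t ht.symm
    have a1 : Ex p 1 (fun s : St d => ((s.2 ∩ nb {0}).card : ℝ)) ≤ q * (2 * d) := by
      have b1 : Ex p 1 (fun s : St d => ((s.2 ∩ nb {0}).card : ℝ)) ≤ zz d p 1 :=
        Ex_mono hp 1 fun s _ => by exact_mod_cast card_le_card inter_subset_left
      have b2 := h2 0
      rw [h0, mul_one] at b2
      rw [h1 0] at b1
      exact b1.trans ((mul_le_mul_of_nonneg_left b2 (hp.2 0).1).trans
        (mul_le_mul_of_nonneg_right (hp.2 0).2 d0))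
    have a2 : ∀ k, Ex p (k + 2) (fun s : St d => ((s.2 ∩ nb {0}).card : ℝ)) = 0 := by
      intro k
      rw [Ex_succ, Ex_succ, ← Ex_const (d := d) p k 0]
      refine Ex_congr p k fun s hs => ?_
      rw [← Bin_const (p k) 0 (fresh s)]
      refine Bin_congr _ fun S hS => ?_
      rw [← Bin_const (p (k + 1)) 0 (fresh (step s S))]
      refine Bin_congr _ fun S' hS' => ?_
      show ((S' ∩ nb {0}).card : ℝ) = 0
      rw [Nat.cast_eq_zero, card_eq_zero, ← disjoint_iff_inter_eq_empty, disjoint_left]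
      intro x hx hx'
      refine (mem_fresh1 (hS' hx)).2.2 ?_
      rw [step_sdiff hS]
      exact nb_mono (singleton_subset_iff.2 hs.2.1) hx'
    rcases K with _ | K
    · rw [zero_add, sum_range_one, a0]
      exact mul_nonneg q0 d0
    · rw [sum_range_succ', sum_range_succ', a0, sum_eq_zero fun k _ => a2 k]
      simpa using a1

theorem det_mu {d : ℕ} (s : St d) {x : Cell d} (hx : x ∈ PL.fresh s) :
    (∑ b ∈ s.2, if x ∈ nb {b} then (1 : ℝ) else 0) ≤ (if x ∈ fresh s then 1 else 0) +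
      pairs s.2 fun a b => if x ∈ nb {a} ∩ nb {b} then 1 else 0 := by
  have h1 : (pairs s.2 fun a b => if x ∈ nb {a} ∩ nb {b} then (1 : ℝ) else 0) =
      ∑ a ∈ s.2, (if x ∈ nb {a} then (1 : ℝ) else 0) *
        ((∑ b ∈ s.2, if x ∈ nb {b} then (1 : ℝ) else 0) - 1) := by
    refine sum_congr rfl fun a ha => ?_
    by_cases h : x ∈ nb {a}
    · rw [← add_sum_erase s.2 _ ha]; simp [h]
    · simp [h]
  rw [h1, ← sum_mul, sum_boole]
  simp only [fresh, mem_filter, hx, true_and]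
  generalize (s.2.filter fun b => x ∈ nb {b}).card = m
  rcases Nat.lt_or_ge m 2 with h | h
  · interval_cases m <;> norm_num
  · have : (2 : ℝ) ≤ m := by exact_mod_cast h
    rw [if_neg (by omega)]
    nlinarith

theorem p_DET (hTWO : S_TWO) :
    S_DET := by
  intro d s hs Y hY
  have h1 := sum_le_sum fun b (hb : b ∈ s.2) => det_one hTWO hs hb
  rw [sum_const, nsmul_eq_mul, sum_add_distrib, sum_add_distrib, sum_comm, sum_boole,
    filter_mem_eq_inter] at h1
  have h2 := sum_le_sum fun x (hx : x ∈ PL.fresh s) => det_mu s hx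
  rw [sum_add_distrib, sum_boole, filter_mem_eq_inter, inter_eq_right.2 (fresh_le s)] at h2
  have h3 : (∑ x ∈ PL.fresh s, pairs s.2 fun a b => if x ∈ nb {a} ∩ nb {b} then 1 else 0) ≤
      pairs s.2 (gs Y) := by
    unfold pairs
    rw [sum_comm]
    refine sum_le_sum fun a _ => ?_
    rw [sum_comm]
    exact sum_le_sum fun b hb => det_gs hTWO hY (mem_erase.1 hb).1.symm
  linarith

theorem p_REC (hBIN : S_BIN) (hNBS : S_NBS) :
    S_REC := by
  intro d p q hp h hh
  refine ⟨by simp [RR, Ex, s0, pairs], by simp [QQ, Ex, s0], fun k => ⟨?_, ?_⟩⟩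
  · have e : q ^ 2 * (zz d p k * T (T h) 0 + RR p k (T (T h))) = Ex p k fun s : St d =>
        q ^ 2 * (T (T h) 0 * (s.2.card : ℝ) + pairs s.2 fun a b => T (T h) (a - b)) := by
      rw [Ex_mul, Ex_add, Ex_mul, mul_comm (zz d p k)]
      rfl
    rw [e, RR, Ex_succ]
    refine Ex_mono hp k fun s _ => ?_
    have h1 := (hBIN d (p k) (fresh s)).2 fun a b => h (a - b)
    have h2 := ((hNBS d s.2 (fresh s) (fresh_sub s)).1 h hh).2
    have h3 : 0 ≤ pairs (fresh s) fun a b => h (a - b) :=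
      sum_nonneg fun _ _ => sum_nonneg fun _ _ => hh _
    refine le_trans (le_of_eq h1) ?_
    rw [mul_comm (T (T h) 0)]
    exact mul_le_mul (pow_le_pow_left₀ (hp.2 k).1 (hp.2 k).2 2) h2 h3 (sq_nonneg q)
  · have e : q * (QQ p k (T h) + zz d p k * T h 0 + RR p k (T h)) = Ex p k fun s : St d =>
        q * ((∑ b ∈ s.2, ∑ w ∈ s.1 \ s.2, T h (b - w)) + T h 0 * (s.2.card : ℝ) +
          pairs s.2 fun a b => T h (a - b)) := by
      rw [Ex_mul, Ex_add, Ex_add, Ex_mul, mul_comm (zz d p k)]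
      rfl
    rw [e, QQ, Ex_succ]
    refine Ex_mono hp k fun s hs => ?_
    have h0 : (Bin (p k) (fresh s) fun S => ∑ b ∈ (step s S).2,
        ∑ w ∈ (step s S).1 \ (step s S).2, h (b - w)) =
        Bin (p k) (fresh s) fun S => ∑ b ∈ S, ∑ w ∈ s.1, h (b - w) :=
      Bin_congr _ fun S hS => by rw [step_sdiff hS]; rfl
    rw [h0, (hBIN d (p k) (fresh s)).1 fun b => ∑ w ∈ s.1, h (b - w)]
    refine mul_le_mul (hp.2 k).2 ?_ (sum_nonneg fun _ _ => sum_nonneg fun _ _ => hh _)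
      ((hp.2 k).1.trans (hp.2 k).2)
    rw [sum_comm]
    refine (sum_le_sum fun w _ => ((hNBS d s.2 (fresh s) (fresh_sub s)).1 h hh).1 w).trans ?_
    rw [sum_comm, pairs, mul_comm, ← nsmul_eq_mul, ← sum_const, ← sum_add_distrib,
      ← sum_add_distrib]
    refine sum_le_sum fun a ha => le_of_eq ?_
    rw [← sum_sdiff hs.1, ← add_sum_erase s.2 _ ha, sub_self, add_assoc]

theorem sol_R (hREC : S_REC) {d : ℕ} {p : ℕ → ℝ} {q : ℝ} (hp : Pr p q) (K : ℕ)
    (h : Cell d → ℝ) (hh : ∀ x, 0 ≤ h x) : ∑ k ∈ range (K + 1), RR p k h ≤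
      aa d p K * ∑ i ∈ range K, q ^ (2 * i + 2) * T^[2 * i + 2] h 0 := by
  have hq : 0 ≤ q := (hp.2 0).1.trans (hp.2 0).2
  induction K generalizing h with
  | zero => simp [(hREC d p q hp h hh).1]
  | succ K ih =>
    obtain ⟨h0, -, h1⟩ := hREC d p q hp h hh
    have h2 := ih (T (T h)) (T_nonneg (T_nonneg hh))
    have e : ∑ i ∈ range (K + 1), q ^ (2 * i + 2) * T^[2 * i + 2] h 0 =
        q ^ 2 * (T (T h) 0 + ∑ i ∈ range K, q ^ (2 * i + 2) * T^[2 * i + 2] (T (T h)) 0) := by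
      rw [sum_range_succ', mul_add, mul_sum, add_comm]
      congr 1
      refine sum_congr rfl fun i _ => ?_
      rw [show 2 * (i + 1) + 2 = 2 * i + 2 + 1 + 1 by ring, sol_step, sol_step]
      ring
    have n : 0 ≤ ∑ i ∈ range (K + 1), q ^ (2 * i + 2) * T^[2 * i + 2] h 0 :=
      sum_nonneg fun i _ => mul_nonneg (pow_nonneg hq _) (Ti_nonneg _ hh _)
    refine le_trans ?_ (mul_le_mul_of_nonneg_right (aa_mono hp (Nat.le_succ K)) n)
    rw [sum_range_succ', h0, add_zero, e]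
    refine (sum_le_sum fun k _ => (h1 k).1).trans ?_
    rw [← mul_sum, sum_add_distrib, ← sum_mul, mul_left_comm]
    refine mul_le_mul_of_nonneg_left ?_ (pow_nonneg hq _)
    rw [mul_add]
    exact add_le_add le_rfl h2

theorem sol_Q (hREC : S_REC) {d : ℕ} {p : ℕ → ℝ} {q : ℝ} (hp : Pr p q) (K : ℕ)
    (h : Cell d → ℝ) (hh : ∀ x, 0 ≤ h x) : ∑ k ∈ range (K + 1), QQ p k h ≤
      aa d p K * ∑ n ∈ range K, (q ^ (n + 1) * T^[n + 1] h 0 +
        ∑ i ∈ range K, q ^ (n + 2 * i + 3) * T^[n + 2 * i + 3] h 0) := by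
  have hq : 0 ≤ q := (hp.2 0).1.trans (hp.2 0).2
  induction K generalizing h with
  | zero => simp [(hREC d p q hp h hh).2.1]
  | succ K ih =>
    obtain ⟨-, h0, h1⟩ := hREC d p q hp h hh
    have h2 := ih (T h) (T_nonneg hh)
    have h3 := sol_R hREC hp K (T h) (T_nonneg hh)
    have g : ∀ m, 0 ≤ q ^ m * T^[m] h 0 := fun m =>
      mul_nonneg (pow_nonneg hq _) (Ti_nonneg _ hh _)
    have a0 : 0 ≤ aa d p K := sum_nonneg fun k _ => zz_nonneg hp k
    have s : ∀ n, ∑ i ∈ range K, q ^ (n + 2 * i + 3) * T^[n + 2 * i + 3] h 0 ≤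
        ∑ i ∈ range (K + 1), q ^ (n + 2 * i + 3) * T^[n + 2 * i + 3] h 0 := fun n => by
      rw [sum_range_succ]; exact le_add_of_nonneg_right (g _)
    have e : q * (∑ n ∈ range K, (q ^ (n + 1) * T^[n + 1] (T h) 0 +
          ∑ i ∈ range K, q ^ (n + 2 * i + 3) * T^[n + 2 * i + 3] (T h) 0) + T h 0 +
          ∑ i ∈ range K, q ^ (2 * i + 2) * T^[2 * i + 2] (T h) 0) ≤
        ∑ n ∈ range (K + 1), (q ^ (n + 1) * T^[n + 1] h 0 +
          ∑ i ∈ range (K + 1), q ^ (n + 2 * i + 3) * T^[n + 2 * i + 3] h 0) := by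
      rw [sum_range_succ', add_assoc, mul_add, mul_add]
      refine add_le_add ?_ (add_le_add (le_of_eq (by simp)) (le_trans (le_of_eq ?_) (s 0)))
      · rw [mul_sum]
        refine sum_le_sum fun n _ => ?_
        rw [mul_add, ← sol_step]
        refine add_le_add le_rfl (le_trans (le_of_eq ?_) (s (n + 1)))
        rw [mul_sum]
        refine sum_congr rfl fun i _ => ?_
        rw [← sol_step, show n + 2 * i + 3 + 1 = n + 1 + 2 * i + 3 by ring]
      · rw [mul_sum]
        refine sum_congr rfl fun i _ => ?_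
        rw [← sol_step, zero_add]
    have n : 0 ≤ ∑ n ∈ range (K + 1), (q ^ (n + 1) * T^[n + 1] h 0 +
          ∑ i ∈ range (K + 1), q ^ (n + 2 * i + 3) * T^[n + 2 * i + 3] h 0) :=
      sum_nonneg fun i _ => add_nonneg (g _) (sum_nonneg fun _ _ => g _)
    refine le_trans ?_ (mul_le_mul_of_nonneg_right (aa_mono hp (Nat.le_succ K)) n)
    refine le_trans ?_ (mul_le_mul_of_nonneg_left e a0)
    rw [sum_range_succ', h0, add_zero]
    refine (sum_le_sum fun k _ => (h1 k).2).trans ?_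
    rw [← mul_sum, sum_add_distrib, sum_add_distrib, ← sum_mul, mul_left_comm]
    refine mul_le_mul_of_nonneg_left ?_ hq
    rw [mul_add, mul_add]
    exact add_le_add (add_le_add h2 le_rfl) h3

theorem p_SOL (hREC : S_REC) :
    S_SOL := fun _ _ _ hp K h hh => ⟨sol_R hREC hp K h hh, sol_Q hREC hp K h hh⟩

theorem p_LEV (hBIN : S_BIN) (hDET : S_DET) (hNBS : S_NBS) :
    S_LEV := by
  intro d p q hp
  refine ⟨?_, fun k => ?_⟩
  · have h := hDET d (s0 d) inv_s0 ∅ (empty_subset _)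
    have h0 : (0 : Cell d) ∉ nb ({0} : Finset (Cell d)) := by
      intro h
      obtain ⟨z, hz, t, e⟩ := mem_nb.1 h
      rw [mem_singleton.1 hz, zero_add] at e
      exact u_ne_zero t e.symm
    have e : (s0 d).2 ∩ nb {0} = ∅ := singleton_inter_of_notMem h0
    rw [e] at h
    simpa [s0, pairs, ff, Ex] using h
  · have hp0 := (hp.2 k).1
    have hpq := (hp.2 k).2
    simp only [zz, ff, QQ, RR, Ex_succ]
    rw [mul_comm (Ex p k _) ((2 * (d : ℝ)) ^ 2), ← Ex_mul, ← Ex_mul, ← Ex_add, ← Ex_add, ← Ex_add,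
      ← Ex_mul, ← Ex_add]
    refine Ex_mono hp k fun s hs => ?_
    have h1 := Bin_mono hp0 (hpq.trans hp.1) (F := fresh s) fun S hS =>
      hDET d (step s S) (inv_step hs hS) s.2 (hs.1.trans subset_union_left)
    rw [Bin_add, Bin_add, Bin_add, Bin_mul] at h1
    have h2' : Bin (p k) (fresh s) (fun S => pairs (step s S).2 (gs s.2)) =
        p k ^ 2 * pairs (fresh s) (gs s.2) := (hBIN d (p k) (fresh s)).2 _
    have h3 := (hNBS d s.2 (fresh s) (fresh_sub s)).2
    have h4 : 0 ≤ (s.2.card : ℝ) * (2 * d) ^ 2 + pairs s.2 fun a b => T (T h2) (a - b) :=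
      add_nonneg (by positivity) (lev_pairs_nonneg _ fun a b => T_nonneg (T_nonneg h2_nonneg) _)
    have h5 : p k ^ 2 * pairs (fresh s) (gs s.2) ≤
        q ^ 2 * ((s.2.card : ℝ) * (2 * d) ^ 2 + pairs s.2 fun a b => T (T h2) (a - b)) :=
      (mul_le_mul_of_nonneg_left h3 (by positivity)).trans
        (mul_le_mul_of_nonneg_right (pow_le_pow_left₀ hp0 hpq 2) h4)
    rw [h2'] at h1
    linarith

theorem p_FRESH (hMOM : S_MOM) (hTWO : S_TWO) (hSOL : S_SOL) (hRW : S_RW) (hLEV : S_LEV) :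
    S_FRESH := by
  intro d p q hd hp K
  obtain ⟨hz0, -, -, -, ho⟩ := hMOM d p q hp
  obtain ⟨l0, lk⟩ := hLEV d p q hp
  have hq : 0 ≤ q := (hp.2 0).1.trans (hp.2 0).2
  obtain ⟨s1, s2, s3⟩ := fresh_slice (d := d) hq K
  have hTT : ∀ x : Cell d, 0 ≤ T (T h2) x := T_nonneg (T_nonneg h2_nonneg)
  have ha : 0 ≤ aa d p K := sum_nonneg fun k _ => zz_nonneg hp k
  have hw : ∀ l : ℕ, 0 ≤ q ^ l * T^[l] (h2 (d := d)) 0 := fun l =>
    mul_nonneg (pow_nonneg hq _) (Ti_nonneg l h2_nonneg 0)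
  have w1 : T^[1] (h2 (d := d)) 0 ≤ 0 :=
    (Ti_h2_le 1 0).trans_eq ((hRW d hd).1 3 (by decide))
  have w2 : T^[2] (h2 (d := d)) 0 ≤ 2 * d * (2 * d * 2) :=
    T_le (T_le fun x => (hTWO d x).2) 0
  have hQ : ∑ k ∈ range (K + 1), QQ p k (h2 (d := d)) ≤
      aa d p K * (2 * (q * (2 * d)) ^ 2 + 2 * sig d q K) := by
    refine (hSOL d p q hp K h2 h2_nonneg).2.trans (mul_le_mul_of_nonneg_left ?_ ha)
    rw [sum_add_distrib]
    have h1 : ∑ n ∈ range K, q ^ (n + 1) * T^[n + 1] (h2 (d := d)) 0 ≤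
        ∑ n ∈ range (K + 2), q ^ (n + 1) * T^[n + 1] (h2 (d := d)) 0 :=
      sum_le_sum_of_subset_of_nonneg (range_subset_range.2 (by omega)) fun n _ _ => hw _
    rw [sum_range_succ', sum_range_succ'] at h1
    have h3 := mul_le_mul_of_nonneg_left w1 (pow_nonneg hq 1)
    have h4 := mul_le_mul_of_nonneg_left w2 (pow_nonneg hq 2)
    simp only [zero_add, add_assoc, Nat.reduceAdd] at h1
    nlinarith
  have hR : q ^ 2 * ∑ k ∈ range (K + 1), RR p k (T (T (h2 (d := d)))) ≤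
      aa d p K * sig d q K := by
    refine (mul_le_mul_of_nonneg_left (hSOL d p q hp K _ hTT).1 (pow_nonneg hq 2)).trans ?_
    rw [mul_left_comm]
    refine mul_le_mul_of_nonneg_left (le_trans (le_of_eq ?_) s3) ha
    rw [mul_sum]
    refine sum_congr rfl fun i _ => ?_
    have e : T^[2 * i + 4] (h2 (d := d)) = T^[2 * i + 2] (T (T h2)) := rfl
    rw [e]
    ring
  have ho' := ho K
  have hR0 : 0 ≤ RR p K (T (T (h2 (d := d)))) :=
    Ex_nonneg hp K fun s _ => sum_nonneg fun a _ => sum_nonneg fun b _ => hTT _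
  have hQ0 : 0 ≤ QQ p 0 (h2 (d := d)) :=
    Ex_nonneg hp 0 fun s _ => sum_nonneg fun a _ => sum_nonneg fun b _ => h2_nonneg _
  have hO0 : 0 ≤ Ex p 0 (fun s : St d => ((s.2 ∩ nb {0}).card : ℝ)) :=
    Ex_nonneg hp 0 fun s _ => Nat.cast_nonneg _
  have hsum := sum_le_sum fun k (_ : k ∈ range K) => lk k
  simp only [sum_add_distrib, ← mul_sum, ← sum_mul] at hsum
  have a1 : aa d p K = ∑ k ∈ range K, zz d p (k + 1) + 1 := by rw [aa, sum_range_succ', hz0]
  have a2 : ∑ k ∈ range K, zz d p k ≤ aa d p K := by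
    rw [aa, sum_range_succ]; linarith [zz_nonneg (d := d) hp K]
  rw [sum_range_succ'] at hQ ho' ⊢
  rw [sum_range_succ] at hR
  have h5 := mul_le_mul_of_nonneg_left a2 (sq_nonneg (q * (2 * d)))
  have h6 := mul_nonneg (pow_nonneg hq 2) hR0
  have h7 : 0 ≤ aa d p K * sig d q K :=
    mul_nonneg ha (le_trans (sum_nonneg fun n _ => hw _) s2)
  have h8 : 2 * d * aa d p K = 2 * d * ∑ k ∈ range K, zz d p (k + 1) + 2 * d := by
    rw [a1]; ring
  nlinarith

end Pool.Agent.P.MP_d1c5d3_co.TL
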