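import Pool.Agent.P.MP_d1c5d3_co.TL.Low

/-! Roots, concatenation and the assembly. -/

set_option autoImplicit false

namespace Pool.Agent.P.MP_d1c5d3_co.TL

open Finset Filter Topology PL

variable {d : ℕ}

theorem p_ROOT :
    S_ROOT := by
  intro d lam hfin hle m G hG
  have hsub : G ⊆ (hfin m).toFinset.biUnion fun P => P.image fun x => P.image (· - x) := by
    intro B hB
    obtain ⟨h1, h2, h3⟩ := hG B hB
    obtain ⟨c, hc, hmin⟩ := exists_min_image B (fun x => toLex x) ⟨0, h2⟩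
    refine mem_biUnion.2 ⟨B.image (· - c), (Set.Finite.mem_toFinset _).2 ⟨?_, ?_, ?_, ?_⟩,
      mem_image.2 ⟨0 - c, mem_image_of_mem _ h2, ?_⟩⟩
    · rw [card_image_of_injective _ sub_left_injective, h1]
    · exact mem_image.2 ⟨c, hc, sub_self c⟩
    · intro x hx
      obtain ⟨y, hy, rfl⟩ := mem_image.1 hx
      exact root_lex (hmin y hy)
    · refine (isT_iff ⟨_, mem_image_of_mem _ hc⟩).2 ⟨fun a ha b hb => ?_, ?_⟩
      · obtain ⟨x, hx, rfl⟩ := mem_image.1 ha
        obtain ⟨y, hy, rfl⟩ := mem_image.1 hb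
        exact root_lk c (h3.1 x hx y hy)
      · rw [card_image_of_injective _ sub_left_injective]
        simp only [sub_eq_add_neg, ed_shift]
        exact h3.2
    · rw [image_image]
      exact (image_congr fun x _ => by simp).trans image_id
  have hc : G.card ≤ (poly d m).ncard * m := by
    rw [Set.ncard_eq_toFinset_card _ (hfin m)]
    refine (card_le_card hsub).trans (card_biUnion_le_card_mul _ _ _ fun P hP => ?_)
    exact card_image_le.trans ((Set.Finite.mem_toFinset _).1 hP).1.le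
  calc (G.card : ℝ) ≤ (poly d m).ncard * m := by exact_mod_cast hc
    _ ≤ lam ^ m * m := mul_le_mul_of_nonneg_right (hle m) (Nat.cast_nonneg m)
    _ = m * lam ^ m := mul_comm _ _

theorem lex_first {w : Cell d} (i : Fin d) (hi : i.1 = 0) (h : toLex (0 : Cell d) ≤ toLex w) :
    0 ≤ w i := by
  rcases h.eq_or_lt with e | ⟨j, a, b⟩
  · rw [← toLex.injective e]; rfl
  · rcases eq_or_ne i j with rfl | e
    · exact le_of_lt b
    · exact le_of_eq (a i (Fin.lt_def.2 (by have := Fin.val_ne_of_ne e; omega)))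

theorem sup_pair (i : Fin d) (hi : i.1 = 0) {x z M : Cell d} (hx : toLex x ≤ toLex M)
    (hz : toLex (0 : Cell d) ≤ toLex z) (h : x ∈ nb {z + (M + u (i, true))}) :
    z = 0 ∧ x = M := by
  obtain ⟨t, e⟩ := det_mem.1 h
  have a := root_lex hx
  have hw : toLex (0 : Cell d) ≤ toLex (z + (M - x)) := add_nonneg hz a
  have e2 : z + (M - x) = -u (i, true) - u t := by rw [e]; abel
  have h0 := lex_first i hi hw
  have ht : t = opp (i, true) := by
    obtain ⟨j, b⟩ := t
    rw [e2] at h0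
    by_cases hj : i = j
    · subst hj
      cases b
      · rfl
      · simp [u] at h0
    · simp [u, hj] at h0
  rw [ht, u_opp, sub_self] at e2
  have := (add_eq_zero_iff_of_nonneg hz a).1 (congrArg toLex e2)
  exact ⟨toLex.injective this.1, (sub_eq_zero.1 (toLex.injective this.2)).symm⟩

theorem sup_ed (i : Fin d) (hi : i.1 = 0) {P Q : Finset (Cell d)} {M : Cell d}
    (hP : ∀ x ∈ P, toLex x ≤ toLex M) (hQ : ∀ z ∈ Q, toLex (0 : Cell d) ≤ toLex z) :
    ed (Q.image (· + (M + u (i, true)))) P ≤ 1 := by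
  unfold ed
  rw [sum_image fun _ _ _ _ h => add_left_injective _ h]
  refine (sum_le_sum (g := fun z => if z = 0 then 1 else 0) fun z hz => ?_).trans ?_
  · split_ifs with h
    · exact (card_le_card fun x hx => mem_singleton.2 (sup_pair i hi (hP x (mem_filter.1 hx).1)
        (hQ z hz) (mem_filter.1 hx).2).2).trans (card_singleton M).le
    · exact (card_eq_zero.2 (filter_eq_empty_iff.2 fun x hx e =>
        h (sup_pair i hi (hP x hx) (hQ z hz) e).1)).le
  · rw [sum_ite_eq']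
    split_ifs <;> simp

theorem p_SUP :
    S_SUP := by
  intro d hd hf
  refine ⟨(Set.ncard_pos (hf 1)).2 ⟨{0}, card_singleton _, mem_singleton_self _,
    fun x hx => by rw [mem_singleton.1 hx], (isT_iff (singleton_nonempty _)).2
      ⟨Cn_of_root (r := 0) fun x hx => by rw [mem_singleton.1 hx]; exact .refl,
        reach_ed (k := 0) (mem_singleton_self (s0 d))⟩⟩, fun m n => ?_⟩
  have hm : ∀ P : Finset (Cell d), ∃ M : Cell d, (0 : Cell d) ∈ P →
      M ∈ P ∧ ∀ x ∈ P, toLex x ≤ toLex M := fun P => by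
    by_cases h : P.Nonempty
    · obtain ⟨M, h1, h2⟩ := exists_max_image P (fun x => toLex x) h
      exact ⟨M, fun _ => ⟨h1, h2⟩⟩
    · exact ⟨0, fun g => absurd ⟨0, g⟩ h⟩
  choose mx hmx using hm
  obtain ⟨i, hi⟩ : ∃ i : Fin d, i.1 = 0 := ⟨⟨0, hd⟩, rfl⟩
  have lt : ∀ P ∈ poly d m, ∀ Q ∈ poly d n, ∀ x ∈ P,
      ∀ y ∈ Q.image (· + (mx P + u (i, true))), toLex x < toLex y := fun P hP Q hQ x hx y hy => by
    obtain ⟨z, hz, rfl⟩ := mem_image.1 hy
    exact sup_new i ((hmx P hP.2.1).2 x hx) (hQ.2.2.1 z hz)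
  have dj : ∀ P ∈ poly d m, ∀ Q ∈ poly d n,
      Disjoint P (Q.image (· + (mx P + u (i, true)))) := fun P hP Q hQ =>
    disjoint_left.2 fun x hx hx' => lt_irrefl _ (lt P hP Q hQ x hx x hx')
  rw [← Set.ncard_prod]
  refine Set.ncard_le_ncard_of_injOn
    (fun a => a.1 ∪ a.2.image (· + (mx a.1 + u (i, true)))) ?_ ?_ (hf _)
  · rintro ⟨P, Q⟩ ⟨hP, hQ⟩
    have h0 : (0 : Cell d) ∈ P ∪ Q.image (· + (mx P + u (i, true))) := mem_union_left _ hP.2.1
    have cP := (isT_iff ⟨0, hP.2.1⟩).1 hP.2.2.2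
    have cQ := (isT_iff ⟨0, hQ.2.1⟩).1 hQ.2.2.2
    refine ⟨?_, h0, fun x hx => ?_,
      (isT_iff ⟨0, h0⟩).2 ⟨Cn_of_root (r := 0) fun x hx => ?_, ?_⟩⟩
    · rw [card_union_of_disjoint (dj P hP Q hQ),
        card_image_of_injective _ (add_left_injective _), hP.1, hQ.1]
    · rcases mem_union.1 hx with h | h
      · exact hP.2.2.1 x h
      · exact (lt P hP Q hQ 0 hP.2.1 x h).le
    · rcases mem_union.1 hx with h | h
      · exact Lk_mono subset_union_left (cP.1 0 hP.2.1 x h)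
      · obtain ⟨z, hz, rfl⟩ := mem_image.1 h
        have hM := (hmx P hP.2.1).1
        refine (Lk_mono subset_union_left (cP.1 0 hP.2.1 _ hM)).trans (.head (b := 0 + (mx P +
          u (i, true))) ⟨mem_union_left _ hM, mem_union_right _ (mem_image_of_mem _ hQ.2.1),
            (i, true), zero_add _⟩ ?_)
        exact Lk_mono subset_union_right (sup_tr _ (cQ.1 0 hQ.2.1 z hz))
    · have h1 := ed_union P (Q.image (· + (mx P + u (i, true))))
      have h2 := sup_ed (Q := Q) i hi (hmx P hP.2.1).2 hQ.2.2.1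
      have h3 : ed P P + 2 ≤ 2 * P.card := cP.2
      have h4 : ed Q Q + 2 ≤ 2 * Q.card := cQ.2
      rw [ed_shift] at h1
      rw [card_union_of_disjoint (dj P hP Q hQ), card_image_of_injective _ (add_left_injective _)]
      refine (Nat.add_le_add_right h1 2).trans ?_
      omega
  · rintro ⟨P, Q⟩ ⟨hP, hQ⟩ ⟨P', Q'⟩ ⟨hP', hQ'⟩ e
    have hc : P.card = P'.card := hP.1.trans hP'.1.symm
    obtain rfl : P = P' :=
      eq_of_subset_of_card_le (sup_seg hc (lt P hP Q hQ) (lt P' hP' Q' hQ') e) hc.ge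
    have e' := congrArg (· \ P) e
    simp only [union_sdiff_cancel_left (dj P hP Q hQ),
      union_sdiff_cancel_left (dj P hP Q' hQ')] at e'
    rw [image_injective (add_left_injective _) e']

theorem final (hLOW : S_LOW) (hROOT : S_ROOT) (hSUP : S_SUP) (hFEK : S_FEK) (hUP : S_UP) :
    ∃ C : ℝ, ∀ d : ℕ, 1 ≤ d → (∀ n, (poly d n).Finite) ∧ ∃ l : ℝ,
      Tendsto (fun n : ℕ => ((poly d n).ncard : ℝ) ^ ((1 : ℝ) / (n : ℝ))) atTop (𝓝 l) ∧
      |l - (2 * d - 7 / 2) * Real.exp 1| ≤ C / d := by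
  obtain ⟨C1, d0, h1⟩ := hLOW
  obtain ⟨C2, h2⟩ := hUP
  refine ⟨max (max C1 C2) (2 * Real.exp 1 * d0 ^ 2), fun d hd => ?_⟩
  have hfin := fun n => (h2 d hd n).1
  have hd0 : (0 : ℝ) < d := by exact_mod_cast hd
  have h0 : poly d 0 = ∅ := by
    ext B
    simp only [poly, Set.mem_ofPred_eq, Set.mem_empty_iff_false, iff_false]
    rintro ⟨hc, hm, -⟩
    rw [card_eq_zero.1 hc] at hm
    exact notMem_empty _ hm
  obtain ⟨l, l1, l2, l3, l4⟩ := hFEK (fun n => (poly d n).ncard) _ (hSUP d hd hfin).1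
    (hSUP d hd hfin).2 (fun n _ => (h2 d hd n).2) (by simp [h0])
  refine ⟨hfin, l, l4, abs_le.2 ⟨?_, ?_⟩⟩
  · rcases le_or_gt d0 d with h | h
    · have := h1 d h l (by linarith) (hROOT d l hfin l3)
      have h3 : C1 / d ≤ max (max C1 C2) (2 * Real.exp 1 * d0 ^ 2) / d :=
        div_le_div_of_nonneg_right ((le_max_left _ _).trans (le_max_left _ _)) hd0.le
      linarith
    · have h3 : 2 * Real.exp 1 * d0 ^ 2 / d ≤ max (max C1 C2) (2 * Real.exp 1 * d0 ^ 2) / d :=
        div_le_div_of_nonneg_right (le_max_right _ _) hd0.le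
      have h4 : (d : ℝ) ≤ d0 := by exact_mod_cast h.le
      have he := Real.exp_pos 1
      have h5 : 2 * Real.exp 1 * d ≤ 2 * Real.exp 1 * d0 ^ 2 / d := by
        rw [le_div_iff₀ hd0, mul_assoc]
        exact mul_le_mul_of_nonneg_left (by nlinarith) (by positivity)
      nlinarith
  · have h3 : C2 / d ≤ max (max C1 C2) (2 * Real.exp 1 * d0 ^ 2) / d :=
      div_le_div_of_nonneg_right ((le_max_right _ _).trans (le_max_left _ _)) hd0.le
    linarith

end Pool.Agent.P.MP_d1c5d3_co.TL
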