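import Pool.Agent.P.MP_d1c5d3_co.TL.Base

/-! Tree polycubes: the steps of the lower bound. -/

set_option autoImplicit false

namespace Pool.Agent.P.MP_d1c5d3_co.TL

open Finset Filter Topology PL

def S_GIB : Prop := ∀ (d : ℕ) (p : ℕ → ℝ), (∀ k, 0 < p k ∧ p k < 1) → ∀ (k : ℕ) (g : St d → ℝ),
  Real.exp (Ex p k g + ∑ j ∈ range k, ff d p j * Real.binEntropy (p j)) ≤
    Sm k fun s => Real.exp (g s)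

def S_MOM : Prop := ∀ (d : ℕ) (p : ℕ → ℝ) (q : ℝ), Pr p q →
  zz d p 0 = 1 ∧ (∀ k, zz d p (k + 1) = p k * ff d p k) ∧ (∀ k, ff d p k ≤ 2 * d * zz d p k) ∧
  (∀ k, Ex p k (fun s : St d => (s.1.card : ℝ)) = aa d p k) ∧
  ∀ K, ∑ k ∈ range (K + 1), Ex p k (fun s : St d => ((s.2 ∩ nb {0}).card : ℝ)) ≤ q * (2 * d)

def S_DET : Prop := ∀ (d : ℕ) (s : St d), Inv s → ∀ Y ⊆ s.1,
  2 * (d : ℝ) * s.2.card ≤ (fresh s).card + ∑ b ∈ s.2, ∑ w ∈ s.1 \ s.2, h2 (b - w) +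
    (s.2 ∩ nb {0}).card + pairs s.2 (gs Y)

def S_REC : Prop := ∀ (d : ℕ) (p : ℕ → ℝ) (q : ℝ), Pr p q → ∀ h : Cell d → ℝ, (∀ x, 0 ≤ h x) →
  RR p 0 h = 0 ∧ QQ p 0 h = 0 ∧ ∀ k,
    RR p (k + 1) h ≤ q ^ 2 * (zz d p k * T (T h) 0 + RR p k (T (T h))) ∧
    QQ p (k + 1) h ≤ q * (QQ p k (T h) + zz d p k * T h 0 + RR p k (T h))

def S_SOL : Prop := ∀ (d : ℕ) (p : ℕ → ℝ) (q : ℝ), Pr p q → ∀ (K : ℕ) (h : Cell d → ℝ),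
  (∀ x, 0 ≤ h x) →
  ∑ k ∈ range (K + 1), RR p k h ≤
    aa d p K * ∑ i ∈ range K, q ^ (2 * i + 2) * T^[2 * i + 2] h 0 ∧
  ∑ k ∈ range (K + 1), QQ p k h ≤ aa d p K * ∑ n ∈ range K, (q ^ (n + 1) * T^[n + 1] h 0 +
    ∑ i ∈ range K, q ^ (n + 2 * i + 3) * T^[n + 2 * i + 3] h 0)

def S_SIG : Prop := ∃ C : ℝ, ∀ (d : ℕ) (q : ℝ) (K : ℕ), 1 ≤ d → 1 ≤ q * (2 * d) →
  q * (2 * d) ≤ 2 → (K : ℝ) ≤ (2 * d) ^ 5 → (q * (2 * d)) ^ K ≤ (2 * d) ^ 50 →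
  sig d q K ≤ C / (2 * d)

def S_LEV : Prop := ∀ (d : ℕ) (p : ℕ → ℝ) (q : ℝ), Pr p q →
  2 * (d : ℝ) ≤ ff d p 0 ∧ ∀ k,
    2 * d * zz d p (k + 1) ≤ ff d p (k + 1) + QQ p (k + 1) (h2 (d := d)) +
      Ex p (k + 1) (fun s : St d => ((s.2 ∩ nb {0}).card : ℝ)) +
      q ^ 2 * (zz d p k * (2 * d) ^ 2 + RR p k (T (T (h2 (d := d)))))

def S_FRESH : Prop := ∀ (d : ℕ) (p : ℕ → ℝ) (q : ℝ), 1 ≤ d → Pr p q → ∀ K,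
  aa d p K * (2 * d - 3 * (q * (2 * d)) ^ 2 - 3 * sig d q K) - q * (2 * d) ≤
    ∑ k ∈ range (K + 1), ff d p k

def S_PHASE : Prop := ∃ (C : ℝ) (d0 : ℕ), ∀ d ≥ d0, ∃ (p : ℕ → ℝ) (q : ℝ) (L : ℕ), Pr p q ∧
  (∀ k, p k = 1 / (2 * d - 4) ∨ p k = 1 / (2 * d + 2)) ∧ (2 * (d : ℝ)) ^ 3 ≤ aa d p L ∧
  aa d p L * (2 * d - 3 - C / (2 * d)) ≤ ∑ k ∈ range L, ff d p k

def S_REACH : Prop := ∀ d k : ℕ, ∃ G : Finset (Finset (Cell d)),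
  (∀ B ∈ G, (0 : Cell d) ∈ B ∧ Tr B) ∧
  ∀ f : Finset (Cell d) → ℝ, Sm k (fun s : St d => f s.1) = ∑ B ∈ G, f B

def S_GF : Prop := ∀ (d k : ℕ) (lam z : ℝ), 0 ≤ lam → 0 ≤ z → lam * z < 1 → RB d lam →
  Sm k (fun s : St d => z ^ s.1.card) ≤ 1 / (1 - lam * z) ^ 2

def S_LOW : Prop := ∃ (C : ℝ) (d0 : ℕ), ∀ d ≥ d0, ∀ lam : ℝ, 0 < lam → RB d lam →
  (2 * d - 7 / 2) * Real.exp 1 - C / d ≤ lam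

def S_ROOT : Prop := ∀ (d : ℕ) (lam : ℝ), (∀ n, (poly d n).Finite) →
  (∀ n, ((poly d n).ncard : ℝ) ≤ lam ^ n) → RB d lam

def S_SUP : Prop := ∀ d : ℕ, 1 ≤ d → (∀ n, (poly d n).Finite) →
  1 ≤ (poly d 1).ncard ∧ ∀ m n, (poly d m).ncard * (poly d n).ncard ≤ (poly d (m + n)).ncard

def S_UP : Prop := ∃ C : ℝ, ∀ d : ℕ, 1 ≤ d → ∀ n : ℕ, (poly d n).Finite ∧
  ((poly d n).ncard : ℝ) ≤ ((2 * d - 7 / 2) * Real.exp 1 + C / d) ^ n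

end Pool.Agent.P.MP_d1c5d3_co.TL
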