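import Pool.Agent.P.MP_d1c5d3_co.TL.Iface

/-! The entropy bound. -/

set_option autoImplicit false

namespace Pool.Agent.P.MP_d1c5d3_co.TL

open Finset Filter Topology PL

variable {d : ℕ}

/-- States reachable in `k` steps. -/
def reach_R (d : ℕ) : ℕ → Finset (St d)
  | 0 => {s0 d}
  | k + 1 => (reach_R d k).biUnion fun s => (fresh s).powerset.image (step s)

/-- The trajectory read off from a set of cells. -/
def reach_traj {d : ℕ} (B : Finset (Cell d)) : ℕ → St d
  | 0 => s0 d
  | k + 1 => step (reach_traj B k) (B ∩ fresh (reach_traj B k))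

theorem reach_succ {d k : ℕ} {s' : St d} :
    s' ∈ reach_R d (k + 1) ↔ ∃ s ∈ reach_R d k, ∃ S ⊆ fresh s, step s S = s' := by
  simp only [reach_R, mem_biUnion, mem_image, mem_powerset]

theorem reach_inv {d k : ℕ} {s : St d} (h : s ∈ reach_R d k) : Inv s := by
  induction k generalizing s with
  | zero => rw [mem_singleton.1 h]; exact inv_s0
  | succ k ih =>
    obtain ⟨s, hs, S, hS, rfl⟩ := reach_succ.1 h
    exact inv_step (ih hs) hS

theorem reach_eq {d k : ℕ} {B : Finset (Cell d)} {s : St d} (h : s ∈ reach_R d k)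
    (h1 : s.1 ⊆ B) (h2 : B ∩ nb (s.1 \ s.2) ⊆ s.1) : reach_traj B k = s := by
  induction k generalizing s with
  | zero => rw [mem_singleton.1 h]; rfl
  | succ k ih =>
    obtain ⟨s, hs, S, hS, rfl⟩ := reach_succ.1 h
    rw [step_sdiff hS] at h2
    have h1' : s.1 ∪ S ⊆ B := h1
    have h2' : B ∩ nb s.1 ⊆ s.1 ∪ S := h2
    have e1 : reach_traj B k = s := ih hs (subset_union_left.trans h1') fun x hx => by
      obtain ⟨a, b⟩ := mem_inter.1 hx
      rcases mem_union.1 (h2' (mem_inter.2 ⟨a, nb_mono sdiff_subset b⟩)) with c | c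
      · exact c
      · exact absurd b (mem_fresh1 (hS c)).2.2
    have e2 : B ∩ fresh s = S := by
      refine Subset.antisymm (fun x hx => ?_)
        (subset_inter (subset_union_right.trans h1') hS)
      obtain ⟨a, b⟩ := mem_inter.1 hx
      rcases mem_union.1 (h2' (mem_inter.2 ⟨a, nb_mono (reach_inv hs).1 (fresh_sub s b)⟩)) with
        c | c
      · exact absurd c (mem_fresh1 b).2.1
      · exact c
    rw [reach_traj, e1, e2]

theorem reach_inj {d k : ℕ} {s s' : St d} (h : s ∈ reach_R d k) (h' : s' ∈ reach_R d k)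
    (e : s.1 = s'.1) : s = s' := by
  rw [← reach_eq h Subset.rfl inter_subset_left, ← reach_eq h' Subset.rfl inter_subset_left, e]

theorem reach_sum {d : ℕ} (k : ℕ) (f : St d → ℝ) : Sm k f = ∑ s ∈ reach_R d k, f s := by
  induction k generalizing f with
  | zero => simp [Sm, reach_R]
  | succ k ih =>
    rw [Sm_succ, ih, reach_R, sum_biUnion]
    · refine sum_congr rfl fun s _ => (sum_image fun S _ S' _ e => ?_).symm
      exact congrArg Prod.snd e
    · intro s hs s' hs' hne
      refine disjoint_left.2 fun t ht ht' => hne ?_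
      obtain ⟨S, hS, rfl⟩ := mem_image.1 ht
      obtain ⟨S', hS', e⟩ := mem_image.1 ht'
      refine reach_inj hs hs' ?_
      rw [← step_sdiff (mem_powerset.1 hS), ← step_sdiff (mem_powerset.1 hS'), e]

theorem reach_lk {d k : ℕ} {s : St d} (h : s ∈ reach_R d k) : ∀ x ∈ s.1, Lk s.1 0 x := by
  induction k generalizing s with
  | zero =>
    rw [mem_singleton.1 h]
    intro x hx
    rw [mem_singleton.1 hx]
    exact .refl
  | succ k ih =>
    obtain ⟨s, hs, S, hS, rfl⟩ := reach_succ.1 h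
    intro x hx
    rcases mem_union.1 hx with c | c
    · exact Lk_mono subset_union_left (ih hs x c)
    · obtain ⟨z, hz, t, rfl⟩ := mem_nb.1 (fresh_sub s (hS c))
      have hz' := (reach_inv hs).1 hz
      exact .tail (Lk_mono subset_union_left (ih hs z hz')) ⟨mem_union_left _ hz', hx, t, rfl⟩

theorem par_step (x : Cell d) (t : Dir d) : Odd (∑ i, (x + u t) i - ∑ i, x i) := by
  obtain ⟨j, b⟩ := t
  simp only [Pi.add_apply, sum_add_distrib, add_sub_cancel_left, u, Finset.sum_pi_single',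
    mem_univ, if_true]
  cases b <;> simp

theorem reach_par {k : ℕ} {s : St d} (h : s ∈ reach_R d k) :
    ∀ x ∈ s.2, Even (∑ i, x i - k) := by
  induction k generalizing s with
  | zero =>
    rw [mem_singleton.1 h]
    intro x hx
    rw [mem_singleton.1 hx]
    simp
  | succ k ih =>
    obtain ⟨s, hs, S, hS, rfl⟩ := reach_succ.1 h
    intro x hx
    obtain ⟨z, hz, t, rfl⟩ := mem_nb.1 (fresh_sub s (hS hx))
    obtain ⟨a, ha⟩ := ih hs z hz
    obtain ⟨b, hb⟩ := par_step z t
    exact ⟨a + b, by push_cast; omega⟩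

theorem reach_ed {k : ℕ} {s : St d} (h : s ∈ reach_R d k) : ed s.1 s.1 + 2 ≤ 2 * s.1.card := by
  induction k generalizing s with
  | zero =>
    rw [mem_singleton.1 h]
    have : (0 : Cell d) ∉ nb {0} := fun h => by
      obtain ⟨t, e⟩ := det_mem.1 h
      exact u_ne_zero t (by simpa using e.symm)
    simp [ed, s0, filter_singleton, this]
  | succ k ih =>
    have hp := reach_par h
    obtain ⟨s, hs, S, hS, rfl⟩ := reach_succ.1 h
    have h1 := ed_union s.1 S
    have h2 : ed S S = 0 := sum_eq_zero fun x hx => card_eq_zero.2 (filter_eq_empty_iff.2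
      fun y hy e => by
        obtain ⟨t, rfl⟩ := det_mem.1 e
        obtain ⟨a, ha⟩ := hp x hx
        obtain ⟨b, hb⟩ := hp _ hy
        obtain ⟨c, hc⟩ := par_step x t
        omega)
    have h3 : ed S s.1 ≤ S.card := by
      rw [card_eq_sum_ones]
      refine sum_le_sum fun x hx => le_trans (card_le_card fun y hy => ?_)
        (mem_filter.1 (hS hx)).2.le
      obtain ⟨a, b⟩ := mem_filter.1 hy
      refine mem_filter.2 ⟨by_contra fun c => (mem_fresh1 (hS hx)).2.2 ?_, det_symm b⟩
      exact nb_mono (singleton_subset_iff.2 (mem_sdiff.2 ⟨a, c⟩)) (det_symm b)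
    have h4 : Disjoint s.1 S := disjoint_right.2 fun x hx => (mem_fresh1 (hS hx)).2.1
    have h5 := ih hs
    simp only [step, card_union_of_disjoint h4]
    omega

theorem p_REACH :
    S_REACH := by
  intro d k
  refine ⟨(reach_R d k).image Prod.fst, fun B hB => ?_, fun f => ?_⟩
  · obtain ⟨s, hs, rfl⟩ := mem_image.1 hB
    exact ⟨(reach_inv hs).2.1, Cn_of_root (reach_lk hs), reach_ed hs⟩
  · rw [reach_sum, sum_image fun s hs s' hs' e => reach_inj hs hs' e]

theorem p_GF (hREACH : S_REACH) :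
    S_GF := by
  intro d k lam z hl hz hr hRB
  obtain ⟨G, hG, hS⟩ := hREACH d k
  rw [hS fun B => z ^ B.card]
  have hr0 : 0 ≤ lam * z := mul_nonneg hl hz
  have hn : ‖lam * z‖ < 1 := by rwa [Real.norm_eq_abs, abs_of_nonneg hr0]
  rw [← sum_fiberwise_of_maps_to (s := G) (t := G.image card) (g := card)
    fun B hB => mem_image_of_mem _ hB]
  have h1 : ∀ m ∈ G.image card, ∑ B ∈ G with B.card = m, z ^ B.card ≤
      (m : ℝ) * (lam * z) ^ m := fun m _ => by
    rw [sum_congr rfl (g := fun _ => z ^ m) fun B hB => by rw [(mem_filter.1 hB).2], sum_const,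
      nsmul_eq_mul, mul_pow, ← mul_assoc]
    refine mul_le_mul_of_nonneg_right (hRB m _ fun B hB => ?_) (pow_nonneg hz m)
    exact ⟨(mem_filter.1 hB).2, hG B (mem_filter.1 hB).1⟩
  refine (sum_le_sum h1).trans ((sum_le_hasSum _ (fun m _ => by positivity)
    (hasSum_coe_mul_geometric_of_norm_lt_one hn)).trans ?_)
  exact div_le_div_of_nonneg_right hr.le (sq_nonneg _)

theorem low_num {N C lam z a : ℝ} (hN : 20 ≤ N) (hl : 0 < lam) (hz : z = (1 - 1 / N ^ 2) / lam)
    (ha : N ^ 3 ≤ a)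
    (h : Real.log z * a + ((Real.log N - 1 / (2 * N) - 30 / N ^ 2) * (a - 1) +
      1 / N * (a * (N - 3 - C / N))) ≤ 4 * Real.log N) :
    (N - 7 / 2) * Real.exp 1 - (37 + C) * Real.exp 1 / N ≤ lam := by
  have hN0 : 0 < N := by linarith
  have hi : 1 / N ^ 2 ≤ 1 / 2 := one_div_le_one_div_of_le (by norm_num) (by nlinarith)
  have hi0 : 0 < 1 / N ^ 2 := by positivity
  have h1 : -(2 * (1 / N ^ 2)) ≤ Real.log (1 - 1 / N ^ 2) := by
    refine le_trans ?_ (Real.one_sub_inv_le_log_of_pos (by linarith))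
    have : (1 - 1 / N ^ 2)⁻¹ ≤ 1 + 2 * (1 / N ^ 2) := by
      rw [inv_le_iff_one_le_mul₀ (by linarith)]
      nlinarith
    linarith
  have h2 : Real.log z = Real.log (1 - 1 / N ^ 2) - Real.log lam := by
    rw [hz, Real.log_div (by linarith) hl.ne']
  have h3 : Real.log N ≤ N := (Real.log_le_sub_one_of_pos hN0).trans (by linarith)
  have ha0 : 0 < a := lt_of_lt_of_le (by positivity) ha
  have h4 : N ≤ a * (1 / N ^ 2) := by
    rw [mul_one_div, le_div_iff₀ (by positivity)]
    linarith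
  have h5 : 1 / N * (N - 3 - C / N) = 1 - 3 * (1 / N) - C * (1 / N ^ 2) := by
    field_simp
  have h6 : 1 / (2 * N) = 1 / 2 * (1 / N) := by field_simp
  have h7 : 30 / N ^ 2 = 30 * (1 / N ^ 2) := by ring
  have h8 : 0 < 1 / N := by positivity
  have h9 : Real.log z + Real.log N + 1 - 7 / 2 * (1 / N) - (35 + C) * (1 / N ^ 2) ≤ 0 := by
    rw [mul_left_comm, h5, h6, h7] at h
    refine le_of_mul_le_mul_left ?_ ha0
    nlinarith
  have h10 : Real.log N + (1 + -(7 / 2 * (1 / N) + (37 + C) * (1 / N ^ 2))) ≤ Real.log lam := by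
    linarith
  have h11 := Real.exp_le_exp.2 h10
  rw [Real.exp_log hl, Real.exp_add, Real.exp_add, Real.exp_log hN0] at h11
  refine le_trans ?_ h11
  have h12 := Real.add_one_le_exp (-(7 / 2 * (1 / N) + (37 + C) * (1 / N ^ 2)))
  have h13 : (N - 7 / 2) * Real.exp 1 - (37 + C) * Real.exp 1 / N =
      N * (Real.exp 1 * (-(7 / 2 * (1 / N) + (37 + C) * (1 / N ^ 2)) + 1)) := by
    field_simp
    ring
  rw [h13]
  gcongr

theorem p_LOW (hGIB : S_GIB) (hMOM : S_MOM) (hPHASE : S_PHASE) (hNUM : S_NUM) (hGF : S_GF) :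
    S_LOW := by
  obtain ⟨C, d0, hP⟩ := hPHASE
  refine ⟨(37 + C) * Real.exp 1 / 2, max d0 10, fun d hd lam hl hR => ?_⟩
  obtain ⟨p, q, L, hp, hv, ha, hf⟩ := hP d (le_of_max_le_left hd)
  have hd10 : (10 : ℝ) ≤ d := by exact_mod_cast le_of_max_le_right hd
  obtain ⟨z0, zs, -, hA, -⟩ := hMOM d p q hp
  rw [div_div]
  generalize hNd : 2 * (d : ℝ) = N at *
  have hN : 20 ≤ N := by linarith
  have hi : 1 / N ^ 2 < 1 := by rw [div_lt_one (by positivity)]; nlinarith
  have hi0 : 0 < 1 / N ^ 2 := by positivity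
  set z : ℝ := (1 - 1 / N ^ 2) / lam with hz
  have hz0 : 0 < z := div_pos (by linarith) hl
  have hlz : lam * z = 1 - 1 / N ^ 2 := by rw [hz]; field_simp
  have hx : ∀ k, ∃ x, N - 4 ≤ x ∧ x ≤ N + 2 ∧ p k = 1 / x := fun k =>
    (hv k).elim (fun h => ⟨_, le_rfl, by linarith, h⟩) fun h => ⟨_, by linarith, le_rfl, h⟩
  have hp01 : ∀ k, 0 < p k ∧ p k < 1 := fun k => by
    obtain ⟨x, h1, -, h3⟩ := hx k
    have : 0 < x := by linarith
    rw [h3]
    exact ⟨by positivity, by rw [div_lt_one this]; linarith⟩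
  have h1 := hGIB d p hp01 L fun s => Real.log z * s.1.card
  have h2 := hGF d L lam z hl.le hz0.le (by linarith) hR
  have h3 : (fun s : St d => Real.exp (Real.log z * s.1.card)) = fun s => z ^ s.1.card := by
    funext s
    rw [mul_comm, Real.exp_nat_mul, Real.exp_log hz0]
  have h4 : 1 / (1 - lam * z) ^ 2 = Real.exp (4 * Real.log N) := by
    rw [hlz, show (4 : ℝ) = (4 : ℕ) by norm_num, Real.exp_nat_mul, Real.exp_log (by linarith)]
    field_simp
    ring
  rw [h3, Ex_mul, hA] at h1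
  have h5 := Real.exp_le_exp.1 (h1.trans (h2.trans_eq h4))
  refine low_num hN hl hz ha (le_trans (add_le_add_right ?_ _) h5)
  have h6 : aa d p L - 1 = ∑ k ∈ range L, zz d p (k + 1) := by
    rw [aa, sum_range_succ', z0]; ring
  refine le_trans (add_le_add_right (mul_le_mul_of_nonneg_left hf (by positivity)) _) ?_
  rw [h6, mul_sum, mul_sum, ← sum_add_distrib]
  refine sum_le_sum fun k _ => ?_
  obtain ⟨x, x1, x2, x3⟩ := hx k
  have h7 := mul_le_mul_of_nonneg_left (hNUM N x hN x1 x2)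
    (Ex_nonneg hp k fun (s : St d) _ => Nat.cast_nonneg (fresh s).card)
  rw [zs, x3]
  change ff d p k * _ ≤ ff d p k * _ at h7
  linarith

end Pool.Agent.P.MP_d1c5d3_co.TL
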