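import Pool.Agent.P.MP_d1c5d3_co.TL.Chain
import Pool.Agent.P.MP_d1c5d3_co.TL.Sig
import Pool.Agent.P.MP_d1c5d3_co.TL.Phase
import Pool.Agent.P.MP_d1c5d3_co.TL.Comb
import Pool.Agent.P.MP_d1c5d3_co.TG.Num

/-! The two-sided estimate for tree polycubes. -/

set_option autoImplicit false

namespace Pool.Agent.P.MP_d1c5d3_co.TL

open Finset Filter Topology PL

theorem noSq_of {d : ℕ} {A : Finset (Cell d)} (h : IsT A) : TG.NoSq A := by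
  intro b t v htv hb h1 h2 h3
  have adj : ∀ x y : (↑A : Set (Fin d → ℤ)), (∃ s : Dir d, y.1 = x.1 + u s) →
      ((SimpleGraph.fromRel fun x y : Fin d → ℤ => ∑ i, |x i - y i| = 1).induce
        (↑A : Set (Fin d → ℤ))).Adj x y := fun x y e => (conn_adj _ _).2 e
  have a1 := adj ⟨b, hb⟩ ⟨_, h1⟩ ⟨t, rfl⟩
  have a2 := adj ⟨_, h1⟩ ⟨_, h3⟩ ⟨v, rfl⟩
  have a3 := adj ⟨b, hb⟩ ⟨_, h2⟩ ⟨v, rfl⟩
  have a4 := adj ⟨_, h2⟩ ⟨_, h3⟩ ⟨t, add_right_comm _ _ _⟩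
  have n : (⟨b, hb⟩ : (↑A : Set (Fin d → ℤ))) ≠ ⟨_, h3⟩ := fun e => by
    have := congrFun (congrArg Subtype.val e) t.1
    obtain ⟨i, x⟩ := t
    cases x <;> simp [PG.vec, htv] at this
  have e := (h.isAcyclic.subsingleton_path _ _).elim
    ⟨.cons a1 (.cons a2 .nil), by simp [SimpleGraph.Walk.isPath_def, a1.ne, a2.ne, n]⟩
    ⟨.cons a3 (.cons a4 .nil), by simp [SimpleGraph.Walk.isPath_def, a3.ne, a4.ne, n]⟩
  have e2 := congrArg (fun p => p.1.support) e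
  simp only [SimpleGraph.Walk.support_cons, List.cons.injEq, Subtype.mk.injEq, true_and,
    add_right_inj] at e2
  exact htv (congrArg _ (u_inj e2.1))

theorem p_UP :
    S_UP := by
  obtain ⟨C, hC⟩ := TG.main_bound
  refine ⟨C, fun d hd n => ?_⟩
  have key : ∀ A ∈ poly d n, (PG.Good ⟨0, hd⟩ A ∧ TG.NoSq A) ∧ A.card = n :=
    fun A h => ⟨⟨PG.good_of _ rfl h.2.1 h.2.2.1 h.2.2.2.connected, noSq_of h.2.2.2⟩, h.1⟩
  have hf : (poly d n).Finite := by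
    by_contra h
    obtain ⟨k, hk⟩ := exists_nat_gt (((2 * d - 7 / 2) * Real.exp 1 + C / d) ^ n)
    obtain ⟨A, h1, h2⟩ := Set.Infinite.exists_subset_card_eq h k
    have := hC d _ n A fun S hS => key S (h1 hS)
    rw [h2] at this
    linarith
  refine ⟨hf, ?_⟩
  rw [Set.ncard_eq_toFinset_card _ hf]
  exact hC d _ n _ fun S hS => key S (hf.mem_toFinset.1 hS)

theorem low : S_LOW :=
  have mom := p_MOM p_BIN
  have nbs := p_NBS
  p_LOW (p_GIB p_BIN) mom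
    (p_PHASE mom (p_SIG p_RW) (p_FRESH mom p_TWO (p_SOL (p_REC p_BIN nbs)) p_RW
      (p_LEV p_BIN (p_DET p_TWO) nbs))) p_NUM (p_GF p_REACH)

theorem main : ∃ C : ℝ, ∀ d : ℕ, 1 ≤ d → (∀ n, (poly d n).Finite) ∧ ∃ l : ℝ,
    Tendsto (fun n : ℕ => ((poly d n).ncard : ℝ) ^ ((1 : ℝ) / (n : ℝ))) atTop (𝓝 l) ∧
    |l - (2 * d - 7 / 2) * Real.exp 1| ≤ C / d :=
  final low p_ROOT p_SUP p_FEK p_UP

end Pool.Agent.P.MP_d1c5d3_co.TL
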